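import Pool.Agent.Y472.C.Defs
import Pool.Agent.Y481.Wm

/-!
# The potential of the ring (task CB3-POT of helper472)
-/

set_option autoImplicit false

namespace Pool.Agent.Y837.CB

open Finset Filter Topology Metric
open Pool.Agent.W711.HT
open Pool.Agent.Y472
open scoped Real

/-! ### The rectangle -/

lemma isOpen_Rc (ρ τ : ℝ) : IsOpen (Rc ρ τ) := by
  have h1 : IsOpen {z : ℂ | |z.re| < ρ} :=
    isOpen_lt (Complex.continuous_re.abs) continuous_const
  have h2 : IsOpen {z : ℂ | |z.im| < τ} :=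
    isOpen_lt (Complex.continuous_im.abs) continuous_const
  exact h1.inter h2

lemma Rc_mono {a b : ℝ} (h : a ≤ b) {z : ℂ} (hz : z ∈ Rc a a) : z ∈ Rc b b :=
  ⟨lt_of_lt_of_le hz.1 h, lt_of_lt_of_le hz.2 h⟩

lemma Rc_neg {a : ℝ} {z : ℂ} (hz : z ∈ Rc a a) : -z ∈ Rc a a := by
  refine ⟨?_, ?_⟩
  · simpa using hz.1
  · simpa using hz.2

lemma Rc_norm {a : ℝ} {z : ℂ} (hz : z ∈ Rc a a) : ‖z‖ < 2 * a := by
  have h1 := Complex.norm_le_abs_re_add_abs_im z
  have h2 := hz.1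
  have h3 := hz.2
  linarith

lemma Rc_add {a b : ℝ} {z w : ℂ} (hz : z ∈ Rc a a) (hw : ‖w - z‖ ≤ b) : w ∈ Rc (a + b) (a + b) := by
  have h1 := Complex.abs_re_le_norm (w - z)
  have h2 := Complex.abs_im_le_norm (w - z)
  have h3 := hz.1
  have h4 := hz.2
  rw [Complex.sub_re] at h1
  rw [Complex.sub_im] at h2
  refine ⟨?_, ?_⟩
  · have := abs_add_le (w.re - z.re) z.re
    rw [sub_add_cancel] at this
    linarith
  · have := abs_add_le (w.im - z.im) z.im
    rw [sub_add_cancel] at this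
    linarith

/-! ### The logarithm -/

lemma Lg_ok : ∃ r : ℝ, 0 < r ∧ ∀ u z : ℂ, ‖u - π / 2‖ < r → ‖z‖ < r →
    Complex.cos ((u + z) / 2) ≠ 0 ∧
    Complex.cos ((u - z) / 2) / Complex.cos ((u + z) / 2) ∈ Complex.slitPlane := by
  have s2 : (0:ℝ) < √2 / 2 := by positivity
  have c1 : ContinuousAt (fun p : ℂ × ℂ => Complex.cos ((p.1 + p.2) / 2)) ((π : ℂ) / 2, 0) := by
    fun_prop
  have c2 : ContinuousAt (fun p : ℂ × ℂ => Complex.cos ((p.1 - p.2) / 2)) ((π : ℂ) / 2, 0) := by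
    fun_prop
  have v : Complex.cos ((π : ℂ) / 2 / 2) = ((√2 / 2 : ℝ) : ℂ) := by
    rw [show (π : ℂ) / 2 / 2 = ((π / 4 : ℝ) : ℂ) by push_cast; ring, ← Complex.ofReal_cos,
      Real.cos_pi_div_four]
  have hne : Complex.cos ((π : ℂ) / 2 / 2) ≠ 0 := by rw [v]; exact_mod_cast s2.ne'
  have n1 := c1.eventually_ne (y := 0) (by simpa only [add_zero] using hne)
  have c3 : ContinuousAt (fun p : ℂ × ℂ => Complex.cos ((p.1 - p.2) / 2) /
      Complex.cos ((p.1 + p.2) / 2)) ((π : ℂ) / 2, 0) :=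
    c2.div₀ c1 (by simpa only [add_zero] using hne)
  have n3 : ∀ᶠ p : ℂ × ℂ in 𝓝 ((π : ℂ) / 2, 0), Complex.cos ((p.1 - p.2) / 2) /
      Complex.cos ((p.1 + p.2) / 2) ∈ Complex.slitPlane := by
    apply c3.eventually_mem
    apply Complex.isOpen_slitPlane.mem_nhds
    simp only [sub_zero, add_zero]
    rw [div_self hne]
    exact Complex.one_mem_slitPlane
  obtain ⟨r, hr, h⟩ := Metric.eventually_nhds_iff_ball.1 (n1.and n3)
  refine ⟨r, hr, fun u z hu hz => h (u, z) ?_⟩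
  rw [mem_ball, dist_eq_norm, Prod.mk_sub_mk, sub_zero, Prod.norm_mk]
  exact max_lt hu hz

/-- the partial derivative in the first variable -/
noncomputable def P1 (dl : ℂ → ℂ → ℂ → ℂ) (a b χ : ℂ) : ℂ :=
  -(1 / (2 * π)) * Lg (2 * π * dl a b χ) a

/-- the partial derivative in the last variable -/
noncomputable def P3 (dl : ℂ → ℂ → ℂ → ℂ) (a b χ : ℂ) : ℂ :=
  -(1 / (2 * π)) * Lg (π - 2 * π * dl a b χ) χ

section diff

variable {ρ₀ c C : ℝ} {s dl : ℂ → ℂ → ℂ → ℂ}
variable {E : Type*} [NormedAddCommGroup E] [NormedSpace ℂ E] {U : Set E} {a b χ : E → ℂ}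

lemma comp_s (h : SD3 ρ₀ c C s dl) (ha : DifferentiableOn ℂ a U) (hb : DifferentiableOn ℂ b U)
    (hχ : DifferentiableOn ℂ χ U) (ma : ∀ x ∈ U, a x ∈ Rc ρ₀ ρ₀) (mb : ∀ x ∈ U, b x ∈ Rc ρ₀ ρ₀)
    (mχ : ∀ x ∈ U, χ x ∈ Rc ρ₀ ρ₀) : DifferentiableOn ℂ (fun x => s (a x) (b x) (χ x)) U :=
  h.san.comp (f := fun x => (a x, b x, χ x)) (ha.prodMk (hb.prodMk hχ))
    (fun x hx => ⟨ma x hx, mb x hx, mχ x hx⟩)

lemma comp_dl (h : SD3 ρ₀ c C s dl) (ha : DifferentiableOn ℂ a U) (hb : DifferentiableOn ℂ b U)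
    (hχ : DifferentiableOn ℂ χ U) (ma : ∀ x ∈ U, a x ∈ Rc ρ₀ ρ₀) (mb : ∀ x ∈ U, b x ∈ Rc ρ₀ ρ₀)
    (mχ : ∀ x ∈ U, χ x ∈ Rc ρ₀ ρ₀) : DifferentiableOn ℂ (fun x => dl (a x) (b x) (χ x)) U :=
  h.dan.comp (f := fun x => (a x, b x, χ x)) (ha.prodMk (hb.prodMk hχ))
    (fun x hx => ⟨ma x hx, mb x hx, mχ x hx⟩)

lemma Lg_comp {r : ℝ} (hr : ∀ u z : ℂ, ‖u - π / 2‖ < r → ‖z‖ < r →
    Complex.cos ((u + z) / 2) ≠ 0 ∧
    Complex.cos ((u - z) / 2) / Complex.cos ((u + z) / 2) ∈ Complex.slitPlane)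
    {u z : E → ℂ} (hu : DifferentiableOn ℂ u U) (hz : DifferentiableOn ℂ z U)
    (h1 : ∀ x ∈ U, ‖u x - π / 2‖ < r) (h2 : ∀ x ∈ U, ‖z x‖ < r) :
    DifferentiableOn ℂ (fun x => Lg (u x) (z x)) U := by
  unfold Lg
  apply DifferentiableOn.clog
  · have d1 : DifferentiableOn ℂ (fun x => Complex.cos ((u x - z x) / 2)) U := by
      have h5 : DifferentiableOn ℂ (fun x => (u x - z x) * (2 : ℂ)⁻¹) U :=
        (hu.fun_sub hz).mul_const _
      exact h5.ccos.congr fun x _ => by rw [div_eq_mul_inv]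
    have d2 : DifferentiableOn ℂ (fun x => Complex.cos ((u x + z x) / 2)) U := by
      have h5 : DifferentiableOn ℂ (fun x => (u x + z x) * (2 : ℂ)⁻¹) U :=
        (hu.fun_add hz).mul_const _
      exact h5.ccos.congr fun x _ => by rw [div_eq_mul_inv]
    have d3 : DifferentiableOn ℂ (fun x => (Complex.cos ((u x + z x) / 2))⁻¹) U :=
      d2.inv fun x hx => (hr _ _ (h1 x hx) (h2 x hx)).1
    exact (d1.mul d3).congr fun x _ => div_eq_mul_inv _ _
  · intro x hx
    exact (hr _ _ (h1 x hx) (h2 x hx)).2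

end diff

/-! ### The terms -/

/-- the derivative of the term number `i` in the variable number `j` -/
noncomputable def dt (dl : ℂ → ℂ → ℂ → ℂ) (n j i : ℕ) (ψ : ℕ → ℂ) : ℂ :=
  if j = n then P3 dl (ψ i) (ψ ((i + 1) % n)) (ψ n)
  else if j = i then P1 dl (ψ i) (ψ ((i + 1) % n)) (ψ n)
  else if j = (i + 1) % n then P1 dl (ψ ((i + 1) % n)) (ψ i) (ψ n)
  else 0

/-- the term number `i` as a function of the variable number `j` -/
noncomputable def tm (s : ℂ → ℂ → ℂ → ℂ) (n j i : ℕ) (ψ : ℕ → ℂ) (v : ℂ) : ℂ :=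
  s (Function.update ψ j v i) (Function.update ψ j v ((i + 1) % n)) (Function.update ψ j v n)

lemma succ_mod_ne {n i : ℕ} (hn : 2 ≤ n) (hi : i < n) : (i + 1) % n ≠ i := by
  intro h
  rcases Nat.lt_or_ge (i + 1) n with h1 | h1
  · rw [Nat.mod_eq_of_lt h1] at h; omega
  · have h2 : i + 1 = n := by omega
    rw [h2, Nat.mod_self] at h; omega

lemma tm_A (s : ℂ → ℂ → ℂ → ℂ) {n i : ℕ} (hn : 2 ≤ n) (hi : i < n) (ψ : ℕ → ℂ) :
    tm s n n i ψ = fun v => s (ψ i) (ψ ((i + 1) % n)) v := by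
  funext v
  have h1 : (i + 1) % n < n := Nat.mod_lt _ (by omega)
  simp only [tm, Function.update_self]
  rw [Function.update_of_ne (by omega), Function.update_of_ne (by omega)]

lemma tm_B (s : ℂ → ℂ → ℂ → ℂ) {n i : ℕ} (hn : 2 ≤ n) (hi : i < n) (ψ : ℕ → ℂ) :
    tm s n i i ψ = fun v => s v (ψ ((i + 1) % n)) (ψ n) := by
  funext v
  have h2 := succ_mod_ne hn hi
  simp only [tm, Function.update_self]
  rw [Function.update_of_ne h2, Function.update_of_ne (by omega)]

lemma tm_C (s : ℂ → ℂ → ℂ → ℂ) {n i : ℕ} (hn : 2 ≤ n) (hi : i < n) (ψ : ℕ → ℂ) :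
    tm s n ((i + 1) % n) i ψ = fun v => s (ψ i) v (ψ n) := by
  funext v
  have h1 : (i + 1) % n < n := Nat.mod_lt _ (by omega)
  have h2 := succ_mod_ne hn hi
  simp only [tm, Function.update_self]
  rw [Function.update_of_ne h2.symm, Function.update_of_ne (by omega)]

lemma tm_D (s : ℂ → ℂ → ℂ → ℂ) {n i j : ℕ} (h1 : j ≠ n) (h2 : j ≠ i) (h3 : j ≠ (i + 1) % n)
    (ψ : ℕ → ℂ) : tm s n j i ψ = fun _ => s (ψ i) (ψ ((i + 1) % n)) (ψ n) := by
  funext v
  simp only [tm]
  rw [Function.update_of_ne h2.symm, Function.update_of_ne h3.symm, Function.update_of_ne h1.symm]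

section sd

variable {ρ₀ c C : ℝ} {s dl : ℂ → ℂ → ℂ → ℂ}

lemma sder2 (h : SD3 ρ₀ c C s dl) {a b χ : ℂ} (ha : a ∈ Rc ρ₀ ρ₀) (hb : b ∈ Rc ρ₀ ρ₀)
    (hχ : χ ∈ Rc ρ₀ ρ₀) : HasDerivAt (fun v => s a v χ) (P1 dl b a χ) b := by
  refine (h.sder b hb a ha χ hχ).congr_of_eventuallyEq ?_
  filter_upwards [(isOpen_Rc ρ₀ ρ₀).mem_nhds hb] with v hv
  exact h.sym a ha v hv χ hχ

lemma tm_der (h : SD3 ρ₀ c C s dl) {n i j : ℕ} (hn : 2 ≤ n) (hi : i < n) (hj : j ≤ n)
    {ψ : ℕ → ℂ} (hψ : ψ ∈ Bx (n + 1) ρ₀) : HasDerivAt (tm s n j i ψ) (dt dl n j i ψ) (ψ j) := by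
  have h1 : (i + 1) % n < n := Nat.mod_lt _ (by omega)
  have m1 := hψ i (by omega)
  have m2 := hψ ((i + 1) % n) (by omega)
  have m3 := hψ n (by omega)
  have h2 := succ_mod_ne hn hi
  by_cases e1 : j = n
  · subst e1
    rw [tm_A s hn hi, dt, if_pos rfl]
    exact h.sderc _ m1 _ m2 _ m3
  · by_cases e2 : j = i
    · subst e2
      rw [tm_B s hn hi, dt, if_neg e1, if_pos rfl]
      exact h.sder _ m1 _ m2 _ m3
    · by_cases e3 : j = (i + 1) % n
      · subst e3
        rw [tm_C s hn hi, dt, if_neg e1, if_neg e2, if_pos rfl]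
        exact sder2 h m1 m2 m3
      · rw [tm_D s e1 e2 e3, dt, if_neg e1, if_neg e2, if_neg e3]
        exact hasDerivAt_const _ _

lemma tm_conc (h : SD3 ρ₀ c C s dl) {n i j : ℕ} (hn : 2 ≤ n) (hi : i < n) (hj : j ≤ n)
    {ψ : ℕ → ℂ} (hψ : ψ ∈ Bx (n + 1) ρ₀) :
    (deriv (deriv (tm s n j i ψ)) (ψ j)).re ≤ if j = n ∨ j = i then -c else 0 := by
  have h1 : (i + 1) % n < n := Nat.mod_lt _ (by omega)
  have m1 := hψ i (by omega)
  have m2 := hψ ((i + 1) % n) (by omega)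
  have m3 := hψ n (by omega)
  have h2 := succ_mod_ne hn hi
  have hc := h.hc
  by_cases e1 : j = n
  · subst e1
    rw [tm_A s hn hi, if_pos (Or.inl rfl)]
    exact (h.conc _ m1 _ m2 _ m3).2
  · by_cases e2 : j = i
    · subst e2
      rw [tm_B s hn hi, if_pos (Or.inr rfl)]
      exact (h.conc _ m1 _ m2 _ m3).1
    · rw [if_neg (by tauto)]
      by_cases e3 : j = (i + 1) % n
      · subst e3
        rw [tm_C s hn hi]
        have e : (fun v => s (ψ i) v (ψ n)) =ᶠ[𝓝 (ψ ((i + 1) % n))] fun v => s v (ψ i) (ψ n) := by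
          filter_upwards [(isOpen_Rc ρ₀ ρ₀).mem_nhds m2] with v hv
          exact h.sym _ m1 v hv _ m3
        rw [e.deriv.deriv_eq]
        have := (h.conc _ m2 _ m1 _ m3).1
        linarith
      · rw [tm_D s e1 e2 e3]
        simp

lemma ev3 (h : SD3 ρ₀ c C s dl) {a b χ a' b' χ' : ℂ} (ha : a ∈ Rc ρ₀ ρ₀) (hb : b ∈ Rc ρ₀ ρ₀)
    (hχ : χ ∈ Rc ρ₀ ρ₀) (h1 : a' = a ∨ a' = -a) (h2 : b' = b ∨ b' = -b) (h3 : χ' = χ ∨ χ' = -χ) :
    s a' b' χ' = s a b χ := by
  have ma' : a' ∈ Rc ρ₀ ρ₀ := by rcases h1 with e | e <;> rw [e]; exacts [ha, Rc_neg ha]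
  have mb' : b' ∈ Rc ρ₀ ρ₀ := by rcases h2 with e | e <;> rw [e]; exacts [hb, Rc_neg hb]
  have e3 : s a' b' χ' = s a' b' χ := by
    rcases h3 with e | e <;> rw [e]
    exact h.evc _ ma' _ mb' _ hχ
  have e1 : s a' b' χ = s a b' χ := by
    rcases h1 with e | e <;> rw [e]
    exact h.ev _ ha _ mb' _ hχ
  have e2 : s a b' χ = s a b χ := by
    rcases h2 with e | e <;> rw [e]
    rw [h.sym _ ha _ (Rc_neg hb) _ hχ, h.ev _ hb _ ha _ hχ, h.sym _ hb _ ha _ hχ]
  rw [e3, e1, e2]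

end sd

/-! ### The sum -/

lemma Sr_congr (s : ℂ → ℂ → ℂ → ℂ) {n : ℕ} {ψ ψ' : ℕ → ℂ} (h : ∀ i < n + 1, ψ i = ψ' i) :
    Sr s n ψ = Sr s n ψ' := by
  unfold Sr
  refine sum_congr rfl fun j hj => ?_
  have hj' := mem_range.1 hj
  have h1 : (j + 1) % n < n := Nat.mod_lt _ (by omega)
  rw [h j (by omega), h _ (by omega : (j + 1) % n < n + 1), h n (by omega)]

lemma Sr_update (s : ℂ → ℂ → ℂ → ℂ) (n j : ℕ) (ψ : ℕ → ℂ) :
    (fun w => Sr s n (Function.update ψ j w)) = fun w => ∑ i ∈ range n, tm s n j i ψ w := rfl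

lemma update_mem {L : ℕ} {R : ℝ} {ψ : ℕ → ℂ} (hψ : ψ ∈ Bx L R) {j : ℕ} {w : ℂ}
    (hw : w ∈ Rc R R) : Function.update ψ j w ∈ Bx L R := by
  intro i hi
  by_cases e : i = j
  · subst e; rwa [Function.update_self]
  · rw [Function.update_of_ne e]; exact hψ i hi

section main

variable {ρ₀ c C : ℝ} {s dl : ℂ → ℂ → ℂ → ℂ}

lemma tm_update (s : ℂ → ℂ → ℂ → ℂ) (n j i : ℕ) (ψ : ℕ → ℂ) (w : ℂ) :
    tm s n j i (Function.update ψ j w) = tm s n j i ψ := by
  funext v
  simp only [tm, Function.update_idem]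

lemma tm_der' (h : SD3 ρ₀ c C s dl) {n i j : ℕ} (hn : 2 ≤ n) (hi : i < n) (hj : j ≤ n)
    {ψ : ℕ → ℂ} (hψ : ψ ∈ Bx (n + 1) ρ₀) {w : ℂ} (hw : w ∈ Rc ρ₀ ρ₀) :
    HasDerivAt (tm s n j i ψ) (dt dl n j i (Function.update ψ j w)) w := by
  have := tm_der h hn hi hj (update_mem hψ hw (j := j))
  rwa [tm_update, Function.update_self] at this

lemma tm_conc' (h : SD3 ρ₀ c C s dl) {n i j : ℕ} (hn : 2 ≤ n) (hi : i < n) (hj : j ≤ n)
    {ψ : ℕ → ℂ} (hψ : ψ ∈ Bx (n + 1) ρ₀) {w : ℂ} (hw : w ∈ Rc ρ₀ ρ₀) :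
    (deriv (deriv (tm s n j i ψ)) w).re ≤ if j = n ∨ j = i then -c else 0 := by
  have := tm_conc h hn hi hj (update_mem hψ hw (j := j))
  rwa [tm_update, Function.update_self] at this

lemma Sr_der (h : SD3 ρ₀ c C s dl) {n j : ℕ} (hn : 2 ≤ n) (hj : j ≤ n)
    {ψ : ℕ → ℂ} (hψ : ψ ∈ Bx (n + 1) ρ₀) {w : ℂ} (hw : w ∈ Rc ρ₀ ρ₀) :
    HasDerivAt (fun w => Sr s n (Function.update ψ j w))
      (∑ i ∈ range n, dt dl n j i (Function.update ψ j w)) w := by
  rw [Sr_update]
  exact HasDerivAt.fun_sum fun i hi => tm_der' h hn (mem_range.1 hi) hj hψ hw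

lemma Dr_eq (h : SD3 ρ₀ c C s dl) {n j : ℕ} (hn : 2 ≤ n) (hj : j ≤ n)
    {ψ : ℕ → ℂ} (hψ : ψ ∈ Bx (n + 1) ρ₀) : Dr s n j ψ = ∑ i ∈ range n, dt dl n j i ψ := by
  have := (Sr_der h hn hj hψ (hψ j (by omega))).deriv
  rw [Function.update_eq_self] at this
  exact this

lemma Sr_bd (h : SD3 ρ₀ c C s dl) {n : ℕ} {ψ : ℕ → ℂ} (hψ : ψ ∈ Bx (n + 1) ρ₀) :
    ‖Sr s n ψ‖ ≤ n * C := by
  unfold Sr
  refine (norm_sum_le _ _).trans ?_
  have : ∀ i ∈ range n, ‖s (ψ i) (ψ ((i + 1) % n)) (ψ n)‖ ≤ C := by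
    intro i hi
    have hi' := mem_range.1 hi
    have h1 : (i + 1) % n < n := Nat.mod_lt _ (by omega)
    exact h.sbd _ (hψ i (by omega)) _ (hψ _ (by omega)) _ (hψ n (by omega))
  refine (sum_le_sum this).trans ?_
  simp

lemma sd_conc (h : SD3 ρ₀ c C s dl) {n j : ℕ} (hn : 2 ≤ n) (hj : j ≤ n)
    {ψ : ℕ → ℂ} (hψ : ψ ∈ Bx (n + 1) ρ₀) :
    (deriv (fun w => Dr s n j (Function.update ψ j w)) (ψ j)).re ≤ -c := by
  have hψj := hψ j (by omega)
  have e0 : (fun w => Dr s n j (Function.update ψ j w)) =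
      deriv (fun w => Sr s n (Function.update ψ j w)) := by
    funext w
    simp only [Dr, Function.update_idem, Function.update_self]
  have e1 : deriv (fun w => Sr s n (Function.update ψ j w)) =ᶠ[𝓝 (ψ j)]
      fun w => ∑ i ∈ range n, deriv (tm s n j i ψ) w := by
    filter_upwards [(isOpen_Rc ρ₀ ρ₀).mem_nhds hψj] with w hw
    rw [(Sr_der h hn hj hψ hw).deriv]
    exact sum_congr rfl fun i hi => (tm_der' h hn (mem_range.1 hi) hj hψ hw).deriv.symm
  have e2 : ∀ i ∈ range n, DifferentiableAt ℂ (deriv (tm s n j i ψ)) (ψ j) := by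
    intro i hi
    have hd : DifferentiableOn ℂ (tm s n j i ψ) (Rc ρ₀ ρ₀) := fun w hw =>
      (tm_der' h hn (mem_range.1 hi) hj hψ hw).differentiableAt.differentiableWithinAt
    exact (hd.deriv (isOpen_Rc ρ₀ ρ₀)).differentiableAt ((isOpen_Rc ρ₀ ρ₀).mem_nhds hψj)
  rw [e0, e1.deriv_eq, deriv_fun_sum e2, Complex.re_sum]
  have e3 : ∀ i ∈ range n, (deriv (deriv (tm s n j i ψ)) (ψ j)).re ≤
      if j = n ∨ j = i then -c else 0 := fun i hi => tm_conc' h hn (mem_range.1 hi) hj hψ hψj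
  refine (sum_le_sum e3).trans ?_
  have hc := h.hc
  have hcase : ∃ i₀ ∈ range n, j = n ∨ j = i₀ := by
    rcases Nat.lt_or_ge j n with h1 | h1
    · exact ⟨j, mem_range.2 h1, Or.inr rfl⟩
    · exact ⟨0, mem_range.2 (by omega), Or.inl (by omega)⟩
  obtain ⟨i₀, hi₀, hcond⟩ := hcase
  rw [← add_sum_erase _ _ hi₀, if_pos hcond]
  have : ∑ x ∈ (range n).erase i₀, (if j = n ∨ j = x then -c else 0) ≤ 0 := by
    apply sum_nonpos
    intro x _
    split_ifs <;> linarith
  linarith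

end main

theorem pot : Pool.Agent.Y472.S_POT := by
  intro ρ₀ c C s dl h
  obtain ⟨r, hr, hL⟩ := Lg_ok
  have hbet := Pool.Agent.Y481.bet_pos
  have hC := h.hC
  have hρ := h.hρ.1
  have hρ1 := h.hρ.2
  have hπ := Real.pi_gt_three
  have hπ4 := Real.pi_lt_four
  set R : ℝ := min (min (ρ₀ / 4) (r / 4)) (min (r / (100 * C)) (bet / (1 + 1296 * C))) with hR
  have R1 : R ≤ ρ₀ / 4 := (min_le_left _ _).trans (min_le_left _ _)
  have R2 : R ≤ r / 4 := (min_le_left _ _).trans (min_le_right _ _)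
  have R3 : R ≤ r / (100 * C) := (min_le_right _ _).trans (min_le_left _ _)
  have R4 : R ≤ bet / (1 + 1296 * C) := (min_le_right _ _).trans (min_le_right _ _)
  have R0 : 0 < R := by
    rw [hR]
    exact lt_min (lt_min (by positivity) (by positivity)) (lt_min (by positivity) (by positivity))
  have R3' : 100 * C * R ≤ r := by
    rw [le_div_iff₀ (by positivity)] at R3; linarith
  have R4' : (1 + 1296 * C) * R ≤ bet := by
    rw [le_div_iff₀ (by positivity)] at R4; linarith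
  have hsub : ∀ {z : ℂ}, z ∈ Rc R R → z ∈ Rc ρ₀ ρ₀ := fun hz => Rc_mono (by linarith) hz
  have hsubB : ∀ {n : ℕ} {ψ : ℕ → ℂ}, ψ ∈ Bx (n + 1) R → ψ ∈ Bx (n + 1) ρ₀ :=
    fun hψ i hi => hsub (hψ i hi)
  have hnorm : ∀ {z : ℂ}, z ∈ Rc R R → ‖z‖ < r := fun hz => by
    have := Rc_norm hz; linarith
  -- the angle is close to `π / 2`
  have hdl : ∀ {a b χ : ℂ}, a ∈ Rc R R → b ∈ Rc R R → χ ∈ Rc R R →
      ‖2 * (π : ℂ) * (dl a b χ - 1 / 4)‖ < r := by
    intro a b χ ha hb hχ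
    have h1 := (h.dclose a (hsub ha) b (hsub hb) χ (hsub hχ)).2
    have na := Rc_norm ha
    have nb := Rc_norm hb
    have nc := Rc_norm hχ
    have q : ∀ {x : ℝ}, 0 ≤ x → x < 2 * R → x ^ 2 ≤ 4 * R ^ 2 := by
      intro x hx0 hx; nlinarith
    have qa := q (norm_nonneg a) na
    have qb := q (norm_nonneg b) nb
    have qc := q (norm_nonneg χ) nc
    have h2 : ‖dl a b χ - 1 / 4‖ ≤ C * (12 * R ^ 2) := by
      refine h1.trans ?_
      apply mul_le_mul_of_nonneg_left _ hC.le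
      linarith
    rw [norm_mul, norm_mul]
    have h3 : ‖(2 : ℂ)‖ = 2 := by simp
    have h4 : ‖(π : ℂ)‖ = π := by simp [abs_of_pos Real.pi_pos]
    rw [h3, h4]
    have h5 : R ^ 2 ≤ R / 4 := by nlinarith
    have h6 : 2 * π * ‖dl a b χ - 1 / 4‖ ≤ 8 * (C * (12 * R ^ 2)) := by
      apply mul_le_mul _ h2 (norm_nonneg _) (by norm_num)
      linarith
    have h7 : 8 * (C * (12 * R ^ 2)) ≤ 24 * C * R := by nlinarith
    have h8 : 24 * C * R < 100 * C * R := by nlinarith [mul_pos hC R0]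
    linarith
  refine ⟨R, c, R0, by linarith, h.hc, fun n hn => ?_⟩
  have hn0 : (0:ℝ) < n := by exact_mod_cast (by omega : 0 < n)
  refine ⟨n * C + n * C / (ρ₀ / 4), by positivity, ?_⟩
  have hex : ∀ (i : ℕ), DifferentiableOn ℂ (fun x : Fin (n + 1) → ℂ => ex (n + 1) x i)
      (bx (n + 1) R) := by
    intro i
    unfold ex
    by_cases hi : i < n + 1
    · simp only [hi, dite_true]
      fun_prop
    · simp only [hi, dite_false]
      fun_prop
  have mex : ∀ {i : ℕ}, i < n + 1 → ∀ x ∈ bx (n + 1) R, ex (n + 1) x i ∈ Rc R R := by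
    intro i hi x hx
    simp only [ex, hi, dite_true]
    exact hx ⟨i, hi⟩
  have mexB : ∀ x ∈ bx (n + 1) R, ex (n + 1) x ∈ Bx (n + 1) R := fun x hx i hi => mex hi x hx
  refine
    { hR := ⟨R0, by linarith⟩
      hc := h.hc
      hB := by positivity
      hp := hbet
      dep := ?_
      an := ?_
      dan := ?_
      der := ?_
      bd := ?_
      ev := ?_
      conc := ?_
      pos := ?_ }
  · -- dep
    intro ψ ψ' he
    refine ⟨Sr_congr s he, fun j => ?_⟩
    unfold Dr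
    by_cases hj : j < n + 1
    · rw [he j hj]
      congr 1
      funext w
      apply Sr_congr
      intro i hi
      by_cases e : i = j
      · subst e; rw [Function.update_self, Function.update_self]
      · rw [Function.update_of_ne e, Function.update_of_ne e, he i hi]
    · have e1 : ∀ φ : ℕ → ℂ, (fun w => Sr s n (Function.update φ j w)) = fun _ => Sr s n φ := by
        intro φ
        funext w
        apply Sr_congr
        intro i hi
        rw [Function.update_of_ne (by omega)]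
      rw [e1, e1]
      simp
  · -- an
    unfold Sr
    apply DifferentiableOn.fun_sum
    intro i hi
    have hi' := mem_range.1 hi
    have h1 : (i + 1) % n < n := Nat.mod_lt _ (by omega)
    exact comp_s h (hex _) (hex _) (hex _) (fun x hx => hsub (mex (by omega) x hx))
      (fun x hx => hsub (mex (by omega) x hx)) (fun x hx => hsub (mex (by omega) x hx))
  · -- dan
    intro j hj
    have e : ∀ x ∈ bx (n + 1) R, Dr s n j (ex (n + 1) x) =
        ∑ i ∈ range n, dt dl n j i (ex (n + 1) x) := fun x hx =>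
      Dr_eq h hn (by omega) (hsubB (mexB x hx))
    refine DifferentiableOn.congr ?_ e
    apply DifferentiableOn.fun_sum
    intro i hi
    have hi' := mem_range.1 hi
    have h1 : (i + 1) % n < n := Nat.mod_lt _ (by omega)
    have key1 : ∀ {a b : ℕ}, a < n + 1 → b < n + 1 → DifferentiableOn ℂ
        (fun x : Fin (n + 1) → ℂ => P1 dl (ex (n + 1) x a) (ex (n + 1) x b) (ex (n + 1) x n))
        (bx (n + 1) R) := by
      intro a b ha hb
      unfold P1
      apply DifferentiableOn.const_mul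
      refine Lg_comp hL ?_ (hex a) ?_ ?_
      · exact (comp_dl h (hex a) (hex b) (hex n) (fun x hx => hsub (mex ha x hx))
          (fun x hx => hsub (mex hb x hx)) (fun x hx => hsub (mex (by omega) x hx))).const_mul _
      · intro x hx
        have := hdl (mex ha x hx) (mex hb x hx) (mex (by omega : n < n + 1) x hx)
        convert this using 2
        ring
      · intro x hx
        exact hnorm (mex ha x hx)
    by_cases e1 : j = n
    · have g : DifferentiableOn ℂ (fun x : Fin (n + 1) → ℂ =>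
          P3 dl (ex (n + 1) x i) (ex (n + 1) x ((i + 1) % n)) (ex (n + 1) x n)) (bx (n + 1) R) := by
        unfold P3
        apply DifferentiableOn.const_mul
        refine Lg_comp hL ?_ (hex n) ?_ ?_
        · exact ((comp_dl h (hex i) (hex ((i + 1) % n)) (hex n)
            (fun x hx => hsub (mex (by omega) x hx))
            (fun x hx => hsub (mex (by omega) x hx))
            (fun x hx => hsub (mex (by omega) x hx))).const_mul _).const_sub _
        · intro x hx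
          have h5 := hdl (mex (by omega : i < n + 1) x hx)
            (mex (by omega : (i + 1) % n < n + 1) x hx) (mex (by omega : n < n + 1) x hx)
          have e : (π : ℂ) - 2 * π * dl (ex (n + 1) x i) (ex (n + 1) x ((i + 1) % n))
              (ex (n + 1) x n) - π / 2 = -(2 * (π : ℂ) * (dl (ex (n + 1) x i)
                (ex (n + 1) x ((i + 1) % n)) (ex (n + 1) x n) - 1 / 4)) := by ring
          rw [e, norm_neg]
          exact h5
        · intro x hx
          exact hnorm (mex (by omega) x hx)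
      refine g.congr fun x _ => ?_
      rw [dt, if_pos e1]
    · by_cases e2 : j = i
      · refine (key1 (by omega : i < n + 1) (by omega : (i + 1) % n < n + 1)).congr fun x _ => ?_
        rw [dt, if_neg e1, if_pos e2]
      · by_cases e3 : j = (i + 1) % n
        · refine (key1 (by omega : (i + 1) % n < n + 1) (by omega : i < n + 1)).congr fun x _ => ?_
          rw [dt, if_neg e1, if_neg e2, if_pos e3]
        · refine (differentiableOn_const (0 : ℂ)).congr fun x _ => ?_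
          rw [dt, if_neg e1, if_neg e2, if_neg e3]
  · -- der
    intro ψ hψ j hj
    have := Sr_der h hn (by omega : j ≤ n) (hsubB hψ) (hsub (hψ j hj))
    rw [Function.update_eq_self] at this
    rw [Dr_eq h hn (by omega) (hsubB hψ)]
    exact this
  · -- bd
    intro ψ hψ
    have b1 := Sr_bd h (hsubB hψ)
    have b2 : 0 ≤ (n:ℝ) * C / (ρ₀ / 4) := by positivity
    refine ⟨by linarith, fun j hj => ?_⟩
    have hball : ∀ w ∈ closedBall (ψ j) (ρ₀ / 4), w ∈ Rc ρ₀ ρ₀ := by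
      intro w hw
      have hw' : ‖w - ψ j‖ ≤ ρ₀ / 4 := by simpa [dist_eq_norm] using hw
      exact Rc_mono (by linarith) (Rc_add (hψ j hj) hw')
    have hd : ∀ w ∈ closedBall (ψ j) (ρ₀ / 4),
        DifferentiableAt ℂ (fun w => Sr s n (Function.update ψ j w)) w := fun w hw =>
      (Sr_der h hn (by omega : j ≤ n) (hsubB hψ) (hball w hw)).differentiableAt
    have hdc : DiffContOnCl ℂ (fun w => Sr s n (Function.update ψ j w)) (ball (ψ j) (ρ₀ / 4)) := by
      apply DifferentiableOn.diffContOnCl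
      rw [closure_ball _ (by positivity)]
      intro w hw
      exact (hd w hw).differentiableWithinAt
    have key := Complex.norm_deriv_le_of_forall_mem_sphere_norm_le (C := n * C)
      (by positivity : (0:ℝ) < ρ₀ / 4) hdc (fun w hw => by
        apply Sr_bd h
        exact update_mem (hsubB hψ) (hball w (sphere_subset_closedBall hw)))
    have b3 : 0 ≤ (n:ℝ) * C := by positivity
    unfold Dr
    linarith
  · -- ev
    intro ψ hψ j hj
    unfold Sr
    refine sum_congr rfl fun i hi => ?_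
    have hi' := mem_range.1 hi
    have h1 : (i + 1) % n < n := Nat.mod_lt _ (by omega)
    have hu : ∀ k, Function.update ψ j (-ψ j) k = ψ k ∨ Function.update ψ j (-ψ j) k = -ψ k := by
      intro k
      by_cases e : k = j
      · subst e; right; rw [Function.update_self]
      · left; rw [Function.update_of_ne e]
    exact ev3 h (hsub (hψ _ (by omega))) (hsub (hψ _ (by omega))) (hsub (hψ _ (by omega)))
      (hu _) (hu _) (hu _)
  · -- conc
    intro ψ hψ j hj
    exact sd_conc h hn (by omega) (hsubB hψ)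
  · -- pos
    intro ψ hψ
    have term : ∀ i ∈ range n, bet ≤ (s (ψ i) (ψ ((i + 1) % n)) (ψ n)).re := by
      intro i hi
      have hi' := mem_range.1 hi
      have h1 : (i + 1) % n < n := Nat.mod_lt _ (by omega)
      have ma := hψ i (by omega)
      have mb := hψ ((i + 1) % n) (by omega)
      have mc := hψ n (by omega)
      have hlow := h.low _ (hsub ma) _ (hsub mb) _ (hsub mc)
      set a := ψ i
      set b := ψ ((i + 1) % n)
      set χ := ψ n
      have na := Rc_norm ma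
      have nb := Rc_norm mb
      have nc := Rc_norm mc
      have q : ∀ {x : ℝ}, 0 ≤ x → x < 2 * R → x ^ 2 ≤ 4 * R ^ 2 := by
        intro x hx0 hx; nlinarith
      have qa := q (norm_nonneg a) na
      have qb := q (norm_nonneg b) nb
      have qc := q (norm_nonneg χ) nc
      have g1 : (‖a‖ + ‖b‖ + ‖χ‖) ^ 4 ≤ (6 * R) ^ 4 := by
        apply pow_le_pow_left₀ (by positivity)
        linarith
      have g2 : C * (‖a‖ + ‖b‖ + ‖χ‖) ^ 4 ≤ 1296 * C * R := by
        have : C * (‖a‖ + ‖b‖ + ‖χ‖) ^ 4 ≤ C * (6 * R) ^ 4 :=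
          mul_le_mul_of_nonneg_left g1 hC.le
        have h5 : R ^ 4 ≤ R := by
          have : R ≤ 1 := by linarith
          calc R ^ 4 = R * R ^ 3 := by ring
            _ ≤ R * 1 := by
              apply mul_le_mul_of_nonneg_left _ R0.le
              exact pow_le_one₀ R0.le this
            _ = R := by ring
        have h6 : C * (6 * R) ^ 4 = 1296 * (C * R ^ 4) := by ring
        have h7 : C * R ^ 4 ≤ C * R := mul_le_mul_of_nonneg_left h5 hC.le
        linarith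
      have g3 : ‖(a ^ 2 + b ^ 2 + χ ^ 2) / (4 * (π : ℂ))‖ ≤ R := by
        rw [norm_div, norm_mul]
        have h3 : ‖(4 : ℂ)‖ = 4 := by simp
        have h4 : ‖(π : ℂ)‖ = π := by simp [abs_of_pos Real.pi_pos]
        rw [h3, h4, div_le_iff₀ (by positivity)]
        have h5 : ‖a ^ 2 + b ^ 2 + χ ^ 2‖ ≤ ‖a‖ ^ 2 + ‖b‖ ^ 2 + ‖χ‖ ^ 2 := by
          refine (norm_add_le _ _).trans ?_
          refine (add_le_add_left (norm_add_le _ _) _).trans ?_
          simp only [norm_pow]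
          exact le_rfl
        have h6 : R ^ 2 ≤ R := by nlinarith
        nlinarith
      have e1 : (s a b χ).re = 2 * bet - ((a ^ 2 + b ^ 2 + χ ^ 2) / (4 * (π : ℂ))).re +
          (s a b χ - (2 * bet - (a ^ 2 + b ^ 2 + χ ^ 2) / (4 * π))).re := by
        simp only [Complex.sub_re, Complex.mul_re, Complex.ofReal_re, Complex.ofReal_im,
          Complex.re_ofNat, Complex.im_ofNat]
        ring
      have e2 := Complex.re_le_norm ((a ^ 2 + b ^ 2 + χ ^ 2) / (4 * (π : ℂ)))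
      have e3 := (abs_le.1 (Complex.abs_re_le_norm
        (s a b χ - (2 * bet - (a ^ 2 + b ^ 2 + χ ^ 2) / (4 * π))))).1
      rw [e1]
      linarith
    unfold Sr
    rw [Complex.re_sum]
    have := sum_le_sum term
    rw [sum_const, card_range, nsmul_eq_mul] at this
    have hn1 : (1:ℝ) ≤ n := by exact_mod_cast (by omega : 1 ≤ n)
    nlinarith

end Pool.Agent.Y837.CB
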